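import Mathlib

/-!
# Two-set sumsets covering all pairwise sums of basis vectors

If `e_i + e_j ∈ B₀ + B₁` for all `i ≤ j`, then `|B₀| + |B₁| ≥ 2 n`.
-/

set_option autoImplicit false

namespace Pool.Agent.Results.MP_267066_co.TwoSets

/-- the class of a rational vector modulo `2 ℤ^n` -/
noncomputable def cl {n : ℕ} (x : Fin n → ℚ) : Fin n → ℚ × ZMod 2 :=
  fun k => (Int.fract (x k), ((⌊x k⌋ : ℤ) : ZMod 2))

theorem cl_fst {n : ℕ} {x y : Fin n → ℚ} {k : Fin n} {m : ℤ} (h : x k = y k + m) :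
    (cl x k).1 = (cl y k).1 := by
  simp [cl, h]

theorem cl_snd {n : ℕ} {x y : Fin n → ℚ} {k : Fin n} {m : ℤ} (h : x k = y k + m) :
    (cl x k).2 = (cl y k).2 + (m : ZMod 2) := by
  simp [cl, h]

theorem cl_loop {n : ℕ} {x y : Fin n → ℚ} {i : Fin n}
    (h : x + y = Pi.single i 1 + Pi.single i 1) : cl x = cl (-y) := by
  funext k
  have hk := congrFun h k
  simp only [Pi.add_apply] at hk
  have h2 : (2 : ZMod 2) = 0 := by decide
  by_cases hki : k = i
  · subst hki
    rw [Pi.single_eq_same] at hk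
    have h1 : x k = (-y) k + ((2 : ℤ) : ℚ) := by
      rw [Pi.neg_apply]; push_cast; linarith
    refine Prod.ext (cl_fst h1) ?_
    rw [cl_snd h1]
    push_cast
    rw [h2, add_zero]
  · rw [Pi.single_eq_of_ne hki] at hk
    have h1 : x k = (-y) k + ((0 : ℤ) : ℚ) := by
      rw [Pi.neg_apply]; push_cast; linarith
    refine Prod.ext (cl_fst h1) ?_
    rw [cl_snd h1]
    push_cast
    rw [add_zero]

theorem span_single_le {K ι M : Type*} [Field K] [Fintype ι] [DecidableEq ι] [AddCommGroup M]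
    [Module K M] (S : Submodule K M) (f : (ι → K) →ₗ[K] M)
    (h : ∀ i, f (Pi.single i 1) ∈ S) (w : ι → K) : f w ∈ S := by
  have hw : w = ∑ i, w i • (Pi.single i (1 : K) : ι → K) := by
    conv_lhs => rw [← (Pi.basisFun K ι).sum_repr w]
    simp
  rw [hw, map_sum]
  refine Submodule.sum_mem _ fun i _ => ?_
  rw [map_smul]
  exact S.smul_mem _ (h i)

/-- the number of classes is at least `n` -/
theorem card_classes {m : ℕ} (R : Finset (Fin (m + 1) → ℚ × ZMod 2)) (r0 : Fin (m + 1) → ℚ × ZMod 2)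
    (hr0 : r0 ∈ R)
    (h : ∀ j : Fin (m + 1), j ≠ 0 → ∃ u ∈ R, ∃ w ∈ R, ∀ k : Fin (m + 1), k ≠ 0 →
      (u k).2 - (w k).2 = if k = j then 1 else 0) : m + 1 ≤ R.card := by
  classical
  let v : R → (Fin (m + 1) → ZMod 2) := fun r k => if k = 0 then 1 else (r.1 k).2
  let S : Submodule (ZMod 2) (Fin (m + 1) → ZMod 2) := Submodule.span (ZMod 2) (Set.range v)
  have hv : ∀ r, v r ∈ S := fun r => Submodule.subset_span ⟨r, rfl⟩
  have h1 : ∀ j : Fin (m + 1), j ≠ 0 → (Pi.single j 1 : Fin (m + 1) → ZMod 2) ∈ S := by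
    intro j hj
    obtain ⟨u, hu, w, hw, huw⟩ := h j hj
    have : (Pi.single j 1 : Fin (m + 1) → ZMod 2) = v ⟨u, hu⟩ - v ⟨w, hw⟩ := by
      funext k
      simp only [Pi.sub_apply, v]
      by_cases hk : k = 0
      · subst hk
        simp [Pi.single_eq_of_ne (Ne.symm hj)]
      · simp only [hk, if_false]
        rw [huw k hk, Pi.single_apply]
    rw [this]
    exact S.sub_mem (hv _) (hv _)
  have h0 : (Pi.single 0 1 : Fin (m + 1) → ZMod 2) ∈ S := by
    have e : (Pi.single 0 1 : Fin (m + 1) → ZMod 2) =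
        v ⟨r0, hr0⟩ - ∑ j ∈ Finset.univ.erase (0 : Fin (m + 1)),
          (r0 j).2 • (Pi.single j 1 : Fin (m + 1) → ZMod 2) := by
      funext k
      simp only [Pi.sub_apply, Finset.sum_apply, Pi.smul_apply, v]
      by_cases hk : k = 0
      · subst hk
        rw [Finset.sum_eq_zero]
        · simp
        · intro j hj
          rw [Pi.single_eq_of_ne (Ne.symm (Finset.ne_of_mem_erase hj))]
          simp
      · rw [Finset.sum_eq_single k]
        · simp [hk]
        · intro j _ hjk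
          rw [Pi.single_eq_of_ne (Ne.symm hjk)]
          simp
        · intro hk'
          exact absurd (Finset.mem_erase.2 ⟨hk, Finset.mem_univ _⟩) hk'
    rw [e]
    refine S.sub_mem (hv _) (Submodule.sum_mem _ fun j hj => S.smul_mem _ ?_)
    exact h1 j (Finset.ne_of_mem_erase hj)
  have htop : S = ⊤ := by
    rw [eq_top_iff]
    intro w _
    exact span_single_le S LinearMap.id (fun i => by
      by_cases hi : i = 0
      · subst hi; exact h0
      · exact h1 i hi) w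
  have h2 : (Set.range v).finrank (ZMod 2) ≤ Fintype.card R := finrank_range_le_card v
  rw [Set.finrank, show Submodule.span (ZMod 2) (Set.range v) = ⊤ from htop, finrank_top,
    Module.finrank_fin_fun, Fintype.card_coe] at h2
  exact h2

/-- the counting step over the rationals -/
theorem card_total {n : ℕ} (B0 B1 : Finset (Fin n → ℚ)) (R : Finset (Fin n → ℚ × ZMod 2))
    (hR : ∀ r ∈ R, (∃ b ∈ B0, cl b = r) ∨ (∃ b ∈ B1, cl (-b) = r))
    (hB0 : ∀ b ∈ B0, cl b ∈ R) (hB1 : ∀ b ∈ B1, cl (-b) ∈ R)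
    (h : ∀ i : Fin n, ∃ x ∈ B0, ∃ y ∈ B1, x + y = Pi.single i 1 + Pi.single i 1) :
    R.card + n ≤ B0.card + B1.card := by
  classical
  let v : B0 ⊕ B1 → (R → ℚ) × (Fin n → ℚ) := Sum.elim
    (fun b => (Pi.single ⟨cl b.1, hB0 b.1 b.2⟩ 1, b.1))
    (fun b => (Pi.single ⟨cl (-b.1), hB1 b.1 b.2⟩ 1, -b.1))
  let S : Submodule ℚ ((R → ℚ) × (Fin n → ℚ)) := Submodule.span ℚ (Set.range v)
  have hv : ∀ r, v r ∈ S := fun r => Submodule.subset_span ⟨r, rfl⟩
  have h1 : ∀ i : Fin n, ((0 : R → ℚ), (Pi.single i 1 : Fin n → ℚ)) ∈ S := by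
    intro i
    obtain ⟨x, hx, y, hy, hxy⟩ := h i
    have hcl := cl_loop hxy
    have e : ((0 : R → ℚ), (Pi.single i 1 : Fin n → ℚ)) =
        (1 / 2 : ℚ) • (v (Sum.inl ⟨x, hx⟩) - v (Sum.inr ⟨y, hy⟩)) := by
      have e1 : (⟨cl x, hB0 x hx⟩ : R) = ⟨cl (-y), hB1 y hy⟩ := Subtype.ext hcl
      simp only [v, Sum.elim_inl, Sum.elim_inr]
      rw [e1]
      refine Prod.ext ?_ ?_
      · simp
      · simp only [Prod.snd_sub, Prod.smul_snd, sub_neg_eq_add, hxy]
        rw [← two_smul ℚ (Pi.single i 1 : Fin n → ℚ), smul_smul]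
        norm_num
    rw [e]
    exact S.smul_mem _ (S.sub_mem (hv _) (hv _))
  have h2 : ∀ w : Fin n → ℚ, ((0 : R → ℚ), w) ∈ S := fun w =>
    span_single_le S (LinearMap.inr ℚ (R → ℚ) (Fin n → ℚ)) h1 w
  have h3 : ∀ r : R, ((Pi.single r 1 : R → ℚ), (0 : Fin n → ℚ)) ∈ S := by
    rintro ⟨r, hr⟩
    rcases hR r hr with ⟨b, hb, rfl⟩ | ⟨b, hb, rfl⟩
    · have e : ((Pi.single (⟨cl b, hr⟩ : R) 1 : R → ℚ), (0 : Fin n → ℚ)) =
          v (Sum.inl ⟨b, hb⟩) - ((0 : R → ℚ), b) := by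
        simp [v]
      rw [e]
      exact S.sub_mem (hv _) (h2 _)
    · have e : ((Pi.single (⟨cl (-b), hr⟩ : R) 1 : R → ℚ), (0 : Fin n → ℚ)) =
          v (Sum.inr ⟨b, hb⟩) - ((0 : R → ℚ), -b) := by
        simp [v]
      rw [e]
      exact S.sub_mem (hv _) (h2 _)
  have h4 : ∀ w : R → ℚ, (w, (0 : Fin n → ℚ)) ∈ S := fun w =>
    span_single_le S (LinearMap.inl ℚ (R → ℚ) (Fin n → ℚ)) h3 w
  have htop : S = ⊤ := by
    rw [eq_top_iff]
    rintro ⟨a, b⟩ _
    have : (a, b) = (a, (0 : Fin n → ℚ)) + ((0 : R → ℚ), b) := by simp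
    rw [this]
    exact S.add_mem (h4 _) (h2 _)
  have h5 : (Set.range v).finrank ℚ ≤ Fintype.card (B0 ⊕ B1) := finrank_range_le_card v
  rw [Set.finrank, show Submodule.span ℚ (Set.range v) = ⊤ from htop, finrank_top,
    Module.finrank_prod, Module.finrank_fintype_fun_eq_card, Module.finrank_fin_fun,
    Fintype.card_sum, Fintype.card_coe, Fintype.card_coe, Fintype.card_coe] at h5
  exact h5

/-- If `T_n = {e_i + e_j : i ≤ j}` is contained in `B₀ + B₁`, then `|B₀| + |B₁| ≥ 2 n`. -/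
theorem result (n : ℕ) (B0 B1 : Finset (Fin n → ℚ))
    (h : ∀ i j : Fin n, i ≤ j → ∃ b0 ∈ B0, ∃ b1 ∈ B1,
      b0 + b1 = (Pi.single i 1 : Fin n → ℚ) + Pi.single j 1) :
    2 * n ≤ B0.card + B1.card := by
  classical
  obtain _ | m := n
  · simp
  · let R : Finset (Fin (m + 1) → ℚ × ZMod 2) := B0.image cl ∪ B1.image (fun b => cl (-b))
    have hB0 : ∀ b ∈ B0, cl b ∈ R := fun b hb =>
      Finset.mem_union_left _ (Finset.mem_image_of_mem _ hb)
    have hB1 : ∀ b ∈ B1, cl (-b) ∈ R := fun b hb =>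
      Finset.mem_union_right _ (Finset.mem_image_of_mem (fun b => cl (-b)) hb)
    have h1 : R.card + (m + 1) ≤ B0.card + B1.card := by
      refine card_total B0 B1 R ?_ hB0 hB1 fun i => h i i le_rfl
      intro r hr
      rcases Finset.mem_union.1 hr with hr | hr
      · obtain ⟨b, hb, rfl⟩ := Finset.mem_image.1 hr
        exact Or.inl ⟨b, hb, rfl⟩
      · obtain ⟨b, hb, rfl⟩ := Finset.mem_image.1 hr
        exact Or.inr ⟨b, hb, rfl⟩
    have h2 : m + 1 ≤ R.card := by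
      obtain ⟨x, hx, _⟩ := h 0 0 le_rfl
      refine card_classes R (cl x) (hB0 x hx) ?_
      intro j hj
      obtain ⟨b0, hb0, b1, hb1, hb⟩ := h 0 j (Fin.zero_le _)
      refine ⟨cl b0, hB0 _ hb0, cl (-b1), hB1 _ hb1, fun k hk => ?_⟩
      have e := congrFun hb k
      simp only [Pi.add_apply] at e
      rw [Pi.single_eq_of_ne hk, Pi.single_apply] at e
      have e2 : b0 k = (-b1) k + ((if k = j then 1 else 0 : ℤ) : ℚ) := by
        rw [Pi.neg_apply]
        push_cast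
        linarith
      rw [cl_snd e2]
      push_cast
      ring
    omega

end Pool.Agent.Results.MP_267066_co.TwoSets
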